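import Pool.Agent.helper33.QX.SpecA
import Pool.Agent.helper62.QU.INV

/-!
# Project QX (MP_07c750): row COO (the coordinates `x`, `t` with `y = e^t`)
-/

set_option autoImplicit false

open scoped MatrixGroups ContDiff Topology UpperHalfPlane
open UpperHalfPlane MeasureTheory Filter Set
open Pool.Agent.QU

namespace Pool.Agent.QX

/-- the change of variables -/
noncomputable def COO_f (p : ℝ × ℝ) : ℝ × ℝ := (p.1, Real.exp p.2)

/-- its derivative -/
noncomputable def COO_d (p : ℝ × ℝ) : ℝ × ℝ →L[ℝ] ℝ × ℝ :=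
  LinearMap.toContinuousLinearMap (Matrix.toLin (Module.Basis.finTwoProd ℝ)
    (Module.Basis.finTwoProd ℝ) !![1, 0; 0, Real.exp p.2])

theorem COO_det (p : ℝ × ℝ) : (COO_d p).det = Real.exp p.2 := by
  unfold COO_d
  rw [LinearMap.det_toContinuousLinearMap, LinearMap.det_toLin, Matrix.det_fin_two_of]
  ring

theorem COO_deriv (p : ℝ × ℝ) : HasFDerivAt COO_f (COO_d p) p := by
  have h1 : HasFDerivAt COO_f ((ContinuousLinearMap.fst ℝ ℝ ℝ).prod
      (Real.exp p.2 • ContinuousLinearMap.snd ℝ ℝ ℝ)) p :=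
    hasFDerivAt_fst.prodMk ((Real.hasDerivAt_exp p.2).comp_hasFDerivAt p hasFDerivAt_snd)
  have h2 : COO_d p = (ContinuousLinearMap.fst ℝ ℝ ℝ).prod
      (Real.exp p.2 • ContinuousLinearMap.snd ℝ ℝ ℝ) := by
    unfold COO_d
    rw [Matrix.toLin_finTwoProd_toContinuousLinearMap]
    simp
  rw [h2]
  exact h1

theorem COO_inj : Function.Injective COO_f := by
  intro p q h
  have h0 : ((p.1, Real.exp p.2) : ℝ × ℝ) = (q.1, Real.exp q.2) := h
  obtain ⟨h1, h2⟩ := Prod.mk.inj h0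
  exact Prod.ext h1 (Real.exp_injective h2)

theorem COO_image : COO_f '' Set.univ = {p : ℝ × ℝ | 0 < p.2} := by
  ext p
  constructor
  · rintro ⟨q, -, rfl⟩
    exact Real.exp_pos _
  · intro hp
    refine ⟨(p.1, Real.log p.2), Set.mem_univ _, ?_⟩
    exact Prod.ext rfl (Real.exp_log hp)

theorem COO : COO_stmt := by
  intro F _ _
  obtain ⟨-, -, -, -, hI⟩ := INV
  rw [hI ℝ F]
  have h1 : ∫ w in {w : ℂ | 0 < w.im}, ((w.im ^ 2)⁻¹ : ℝ) • F (ofComplex w) =
      ∫ p in {p : ℝ × ℝ | 0 < p.2}, (p.2 ^ 2)⁻¹ * F (ofComplex (⟨p.1, p.2⟩ : ℂ)) := by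
    have h2 := (Complex.volume_preserving_equiv_real_prod).setIntegral_preimage_emb
      Complex.measurableEquivRealProd.measurableEmbedding
      (fun p : ℝ × ℝ => (p.2 ^ 2)⁻¹ * F (ofComplex (⟨p.1, p.2⟩ : ℂ))) {p : ℝ × ℝ | 0 < p.2}
    rw [← h2]
    rfl
  rw [h1, ← COO_image, integral_image_eq_integral_abs_det_fderiv_smul volume MeasurableSet.univ
    (fun p _ => (COO_deriv p).hasFDerivWithinAt) COO_inj.injOn, Measure.restrict_univ]
  refine integral_congr_ae (Filter.Eventually.of_forall fun p => ?_)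
  show |(COO_d p).det| • ((Real.exp p.2 ^ 2)⁻¹ * F (ofComplex (⟨p.1, Real.exp p.2⟩ : ℂ))) =
    Real.exp (-p.2) * F (pt p)
  have h3 : ofComplex (⟨p.1, Real.exp p.2⟩ : ℂ) = pt p :=
    ofComplex_apply_of_im_pos (z := (⟨p.1, Real.exp p.2⟩ : ℂ)) (Real.exp_pos p.2)
  rw [COO_det, abs_of_pos (Real.exp_pos _), h3, smul_eq_mul, ← mul_assoc, Real.exp_neg]
  congr 1
  have h4 := (Real.exp_pos p.2).ne'
  field_simp

end Pool.Agent.QX
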