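import Pool.Agent.helper33.QX.SpecA

/-!
# Project QX (MP_07c750): row DFC (differentiation of the Fourier coefficients)
-/

set_option autoImplicit false

open scoped MatrixGroups ContDiff Topology UpperHalfPlane
open UpperHalfPlane MeasureTheory Filter Set
open Pool.Agent.QU

namespace Pool.Agent.QX

theorem DFC_fd {V : ℝ × ℝ → ℝ} (hV : ContDiff ℝ ∞ V) : ContDiff ℝ ∞ (fderiv ℝ V) :=
  (contDiff_infty_iff_fderiv.mp hV).2

theorem DFC_pT {V : ℝ × ℝ → ℝ} (hV : ContDiff ℝ ∞ V) : ContDiff ℝ ∞ (pT V) :=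
  (DFC_fd hV).clm_apply contDiff_const

theorem DFC_pX {V : ℝ × ℝ → ℝ} (hV : ContDiff ℝ ∞ V) : ContDiff ℝ ∞ (pX V) :=
  (DFC_fd hV).clm_apply contDiff_const

theorem DFC_diff {V : ℝ × ℝ → ℝ} (hV : ContDiff ℝ ∞ V) : Differentiable ℝ V :=
  (contDiff_infty_iff_fderiv.mp hV).1

theorem DFC_dT {V : ℝ × ℝ → ℝ} (hV : ContDiff ℝ ∞ V) (x t : ℝ) :
    HasDerivAt (fun s => V (x, s)) (pT V (x, t)) t := by
  have h1 : HasFDerivAt V (fderiv ℝ V (x, t)) (x, t) := (DFC_diff hV (x, t)).hasFDerivAt
  have h2 : HasDerivAt (fun s : ℝ => ((x, s) : ℝ × ℝ)) (0, 1) t :=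
    (hasDerivAt_const t x).prodMk (hasDerivAt_id t)
  exact h1.comp_hasDerivAt t h2

theorem DFC_dX {V : ℝ × ℝ → ℝ} (hV : ContDiff ℝ ∞ V) (x t : ℝ) :
    HasDerivAt (fun s => V (s, t)) (pX V (x, t)) x := by
  have h1 : HasFDerivAt V (fderiv ℝ V (x, t)) (x, t) := (DFC_diff hV (x, t)).hasFDerivAt
  have h2 : HasDerivAt (fun s : ℝ => ((s, t) : ℝ × ℝ)) (1, 0) x :=
    (hasDerivAt_id x).prodMk (hasDerivAt_const x t)
  exact h1.comp_hasDerivAt x h2

/-- differentiation under the integral -/
theorem DFC_par {V : ℝ × ℝ → ℝ} (hV : ContDiff ℝ ∞ V) {c : ℝ → ℝ} (hc : Continuous c) (L t : ℝ) :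
    HasDerivAt (fun s => ∫ x in (-L)..L, V (x, s) * c x)
      (∫ x in (-L)..L, pT V (x, t) * c x) t := by
  have cV : Continuous V := hV.continuous
  have cT : Continuous (pT V) := (DFC_pT hV).continuous
  have cF : ∀ s, Continuous fun x => V (x, s) * c x := fun s =>
    (cV.comp (continuous_id.prodMk continuous_const)).mul hc
  have cF' : ∀ s, Continuous fun x => pT V (x, s) * c x := fun s =>
    (cT.comp (continuous_id.prodMk continuous_const)).mul hc
  have hK : IsCompact (Set.uIcc (-L) L ×ˢ Metric.closedBall t 1) :=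
    isCompact_uIcc.prod (isCompact_closedBall t 1)
  have cP : Continuous fun p : ℝ × ℝ => pT V p * c p.1 := cT.mul (hc.comp continuous_fst)
  obtain ⟨M, hM⟩ := hK.exists_bound_of_continuousOn cP.continuousOn
  refine (intervalIntegral.hasDerivAt_integral_of_dominated_loc_of_deriv_le
    (F := fun s x => V (x, s) * c x) (F' := fun s x => pT V (x, s) * c x)
    (s := Metric.closedBall t 1) (bound := fun _ => M) (Metric.closedBall_mem_nhds t one_pos)
    (Filter.Eventually.of_forall fun s => (cF s).aestronglyMeasurable)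
    ((cF t).intervalIntegrable _ _) (cF' t).aestronglyMeasurable
    (Filter.Eventually.of_forall fun x hx s hs => ?_) (continuous_const.intervalIntegrable _ _)
    (Filter.Eventually.of_forall fun x hx s hs => ?_)).2
  · exact hM (x, s) ⟨Set.uIoc_subset_uIcc hx, hs⟩
  · exact (DFC_dT hV x s).mul_const (c x)

/-- vanishing of the derivatives at the ends -/
theorem DFC_end {U : ℝ × ℝ → ℝ} (hU : ContDiff ℝ ∞ U) (L t : ℝ)
    (h : ∀ x t, U (x, t) ≠ 0 → |x| < L) (hL : 0 < L) :
    U (L, t) = 0 ∧ U (-L, t) = 0 ∧ pX U (L, t) = 0 ∧ pX U (-L, t) = 0 := by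
  have h0 : ∀ x, L ≤ |x| → U (x, t) = 0 := by
    intro x hx
    by_contra hne
    exact absurd (h x t hne) (not_lt.mpr hx)
  have e1 : U (L, t) = 0 := h0 L (by rw [abs_of_pos hL])
  have e2 : U (-L, t) = 0 := h0 (-L) (by rw [abs_neg, abs_of_pos hL])
  refine ⟨e1, e2, ?_, ?_⟩
  · have h1 : HasDerivWithinAt (fun s => U (s, t)) (pX U (L, t)) (Set.Ici L) L :=
      (DFC_dX hU L t).hasDerivWithinAt
    have h2 : HasDerivWithinAt (fun s => U (s, t)) 0 (Set.Ici L) L := by
      refine (hasDerivWithinAt_const L (Set.Ici L) (0 : ℝ)).congr (fun x hx => ?_) e1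
      exact h0 x (by rw [abs_of_pos (lt_of_lt_of_le hL hx)]; exact hx)
    exact (uniqueDiffWithinAt_Ici L).eq_deriv _ h1 h2
  · have h1 : HasDerivWithinAt (fun s => U (s, t)) (pX U (-L, t)) (Set.Iic (-L)) (-L) :=
      (DFC_dX hU (-L) t).hasDerivWithinAt
    have h2 : HasDerivWithinAt (fun s => U (s, t)) 0 (Set.Iic (-L)) (-L) := by
      refine (hasDerivWithinAt_const (-L) (Set.Iic (-L)) (0 : ℝ)).congr (fun x hx => ?_) e2
      have hx' : x ≤ -L := hx
      refine h0 x ?_
      rw [abs_of_neg (by linarith)]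
      linarith
    exact (uniqueDiffWithinAt_Iic (-L)).eq_deriv _ h1 h2

/-- two integrations by parts -/
theorem DFC_two {U : ℝ × ℝ → ℝ} (hU : ContDiff ℝ ∞ U) (L t a : ℝ)
    (h : ∀ x t, U (x, t) ≠ 0 → |x| < L) (hL : 0 < L) {c d : ℝ → ℝ} (hc : Continuous c)
    (hcd : ∀ x, HasDerivAt c (-a * d x) x) (hdc : ∀ x, HasDerivAt d (a * c x) x) :
    ∫ x in (-L)..L, pX (pX U) (x, t) * c x = -a ^ 2 * ∫ x in (-L)..L, U (x, t) * c x := by
  obtain ⟨e1, e2, e3, e4⟩ := DFC_end hU L t h hL
  have cU : Continuous fun x => U (x, t) * c x :=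
    (hU.continuous.comp (continuous_id.prodMk continuous_const)).mul hc
  have cX : Continuous fun x => pX (pX U) (x, t) * c x :=
    ((DFC_pX (DFC_pX hU)).continuous.comp (continuous_id.prodMk continuous_const)).mul hc
  have hd : ∀ x ∈ Set.uIcc (-L) L, HasDerivAt
      (fun x => pX U (x, t) * c x + a * (U (x, t) * d x))
      (pX (pX U) (x, t) * c x + a ^ 2 * (U (x, t) * c x)) x := by
    intro x _
    have h1 := ((DFC_dX (DFC_pX hU) x t).mul (hcd x)).add
      (((DFC_dX hU x t).mul (hdc x)).const_mul a)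
    have h2 : pX (pX U) (x, t) * c x + pX U (x, t) * (-a * d x) +
        a * (pX U (x, t) * d x + U (x, t) * (a * c x)) =
        pX (pX U) (x, t) * c x + a ^ 2 * (U (x, t) * c x) := by ring
    rw [← h2]
    exact h1
  have h3 := intervalIntegral.integral_eq_sub_of_hasDerivAt hd
    ((cX.add (continuous_const.mul cU)).intervalIntegrable _ _)
  have i1 := cX.intervalIntegrable (μ := volume) (-L) L
  have i2 := cU.intervalIntegrable (μ := volume) (-L) L
  rw [intervalIntegral.integral_add i1 (i2.const_mul (a ^ 2)),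
    intervalIntegral.integral_const_mul, e1, e2, e3, e4] at h3
  linarith

/-- the general statement for a weight `c` -/
theorem DFC_gen {U : ℝ × ℝ → ℝ} (hU : ContDiff ℝ ∞ U) (hs : HasCompactSupport U) (L R a : ℝ)
    (h : ∀ x t, U (x, t) ≠ 0 → |x| < L) (hL : 0 < L) {c d : ℝ → ℝ} (hc : Continuous c)
    (hcd : ∀ x, HasDerivAt c (-a * d x) x) (hdc : ∀ x, HasDerivAt d (a * c x) x)
    (J : (ℝ × ℝ → ℝ) → ℝ → ℝ)
    (hJ : ∀ F t, J F t = (2 * L)⁻¹ * ∫ x in (-L)..L, F (x, t) * c x) :
    ContDiff ℝ 2 (J U) ∧ HasCompactSupport (J U) ∧ (∀ t, deriv (J U) t = J (pT U) t) ∧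
    ∀ t, -deriv (deriv (J U)) t + (a * Real.exp t) ^ 2 * J U t - R * J U t = J (GG R U) t := by
  have hJ' : ∀ F, J F = fun t => (2 * L)⁻¹ * ∫ x in (-L)..L, F (x, t) * c x := by
    intro F
    funext t
    exact hJ F t
  have hd : ∀ {V : ℝ × ℝ → ℝ}, ContDiff ℝ ∞ V → ∀ t, HasDerivAt (J V) (J (pT V) t) t := by
    intro V hV t
    rw [hJ' V, hJ (pT V) t]
    exact (DFC_par hV hc L t).const_mul _
  have hdd : ∀ {V : ℝ × ℝ → ℝ}, ContDiff ℝ ∞ V → deriv (J V) = J (pT V) := by
    intro V hV
    funext t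
    exact (hd hV t).deriv
  have hT := DFC_pT hU
  have hTT := DFC_pT hT
  refine ⟨?_, ?_, fun t => ?_, fun t => ?_⟩
  · have h2 : ContDiff ℝ ((1 : WithTop ℕ∞) + 1) (J U) := by
      rw [contDiff_succ_iff_deriv]
      refine ⟨fun t => (hd hU t).differentiableAt, fun h => absurd h (by simp), ?_⟩
      rw [hdd hU, contDiff_one_iff_deriv]
      refine ⟨fun t => (hd hT t).differentiableAt, ?_⟩
      rw [hdd hT]
      exact continuous_iff_continuousAt.mpr fun t => (hd hTT t).continuousAt
    have h3 : ((1 : WithTop ℕ∞) + 1) = 2 := by norm_num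
    rwa [h3] at h2
  · have hc2 : IsCompact (Prod.snd '' tsupport U) := hs.isCompact.image continuous_snd
    refine HasCompactSupport.intro hc2 fun t ht => ?_
    rw [hJ]
    have h1 : ∀ x, U (x, t) * c x = 0 := by
      intro x
      have h2 : U (x, t) = 0 := by
        by_contra hne
        exact ht ⟨(x, t), subset_tsupport U hne, rfl⟩
      rw [h2, zero_mul]
    simp only [h1, intervalIntegral.integral_zero, mul_zero]
  · exact (hd hU t).deriv
  · have e1 : deriv (deriv (J U)) t = J (pT (pT U)) t := by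
      rw [hdd hU, hdd hT]
    have cc : ∀ {V : ℝ × ℝ → ℝ}, Continuous V → Continuous fun x => V (x, t) * c x :=
      fun hV => (hV.comp (continuous_id.prodMk continuous_const)).mul hc
    have i1 := (cc hTT.continuous).intervalIntegrable (μ := volume) (-L) L
    have i2 := (cc (DFC_pX (DFC_pX hU)).continuous).intervalIntegrable (μ := volume) (-L) L
    have i3 := (cc hU.continuous).intervalIntegrable (μ := volume) (-L) L
    have e2 : ∫ x in (-L)..L, GG R U (x, t) * c x =
        (-1) * (∫ x in (-L)..L, pT (pT U) (x, t) * c x) +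
        ((-Real.exp (2 * t)) * (∫ x in (-L)..L, pX (pX U) (x, t) * c x) +
          (-R) * ∫ x in (-L)..L, U (x, t) * c x) := by
      rw [← intervalIntegral.integral_const_mul, ← intervalIntegral.integral_const_mul,
        ← intervalIntegral.integral_const_mul,
        ← intervalIntegral.integral_add (i2.const_mul _) (i3.const_mul _),
        ← intervalIntegral.integral_add (i1.const_mul _) ((i2.const_mul _).add (i3.const_mul _))]
      refine intervalIntegral.integral_congr fun x _ => ?_
      show GG R U (x, t) * c x = -1 * (pT (pT U) (x, t) * c x) +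
        (-Real.exp (2 * t) * (pX (pX U) (x, t) * c x) + -R * (U (x, t) * c x))
      unfold GG
      ring
    have e3 : Real.exp (2 * t) = Real.exp t ^ 2 := by
      rw [← Real.exp_nat_mul]
      norm_num
    rw [e1, hJ, hJ, hJ, e2, DFC_two hU L t a h hL hc hcd hdc, e3]
    ring

theorem DFC : DFC_stmt := by
  intro L R U n hL hU hs h
  obtain ⟨a, ha⟩ : ∃ a : ℝ, a = Real.pi * n / L := ⟨_, rfl⟩
  have hcos : ∀ x, HasDerivAt (fun x => Real.cos (a * x)) (-a * Real.sin (a * x)) x := by
    intro x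
    have h1 : HasDerivAt (fun x => a * x) a x := by
      simpa using (hasDerivAt_id x).const_mul a
    have h2 := h1.cos
    have e : -Real.sin (a * x) * a = -a * Real.sin (a * x) := by ring
    rw [← e]
    exact h2
  have hsin : ∀ x, HasDerivAt (fun x => Real.sin (a * x)) (a * Real.cos (a * x)) x := by
    intro x
    have h1 : HasDerivAt (fun x => a * x) a x := by
      simpa using (hasDerivAt_id x).const_mul a
    have h2 := h1.sin
    have e : Real.cos (a * x) * a = a * Real.cos (a * x) := by ring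
    rw [← e]
    exact h2
  have ccos : Continuous fun x => Real.cos (a * x) :=
    Real.continuous_cos.comp (continuous_const.mul continuous_id)
  have csin : Continuous fun x => Real.sin (a * x) :=
    Real.continuous_sin.comp (continuous_const.mul continuous_id)
  constructor
  · have h1 := DFC_gen hU hs L R a h hL (c := fun x => Real.cos (a * x))
      (d := fun x => Real.sin (a * x)) ccos hcos hsin (fun F => fcC L F n) (fun F t => by
        unfold fcC
        rw [ha])
    rw [← ha]
    exact h1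
  · have hcos' : ∀ x, HasDerivAt (fun x => -Real.cos (a * x)) (a * Real.sin (a * x)) x := by
      intro x
      have h2 := (hcos x).neg
      have e : -(-a * Real.sin (a * x)) = a * Real.sin (a * x) := by ring
      rw [← e]
      exact h2
    have hsin' : ∀ x, HasDerivAt (fun x => Real.sin (a * x)) (-a * -Real.cos (a * x)) x := by
      intro x
      have e : -a * -Real.cos (a * x) = a * Real.cos (a * x) := by ring
      rw [e]
      exact hsin x
    have h1 := DFC_gen hU hs L R a h hL (c := fun x => Real.sin (a * x))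
      (d := fun x => -Real.cos (a * x)) csin hsin' hcos' (fun F => fcS L F n) (fun F t => by
        unfold fcS
        rw [ha])
    rw [← ha]
    exact h1

end Pool.Agent.QX
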