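import Pool.Agent.helper33.QX.SpecA
import Pool.Agent.helper62.QU.INV
import Pool.Agent.helper62.QU.CA1
import Pool.Agent.helper42.QU.CA2
import Pool.Agent.helper93.QU.DXI
import Pool.Agent.helper22.QU.REL

/-!
# Project QX (MP_07c750): row IDS (two identities for `v` with small `D²v + R v`)
-/

set_option autoImplicit false

open scoped MatrixGroups ContDiff Topology UpperHalfPlane
open UpperHalfPlane MeasureTheory Filter Set
open Pool.Agent.QU

namespace Pool.Agent.QX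

theorem IDS_pt {C R a b c d e g gX gY : ℝ} (hR : 0 ≤ R) (b1 : |g| ≤ C) (b2 : |gX| ≤ C)
    (b3 : |gY| ≤ C) :
    |2 * (gX * (a * b)) + (2 * R) * (gX * (c * d)) + 2 * (gY * (a * e)) - 2 * (g * (a * e))| ≤
      (2 * C) * (|a| * |b|) + (2 * R * C) * (|c| * |d|) + (4 * C) * (|a| * |e|) := by
  have t : ∀ {G x y : ℝ}, |G| ≤ C → |G * (x * y)| ≤ C * (|x| * |y|) := by
    intro G x y hG
    rw [abs_mul, abs_mul]
    exact mul_le_mul_of_nonneg_right hG (mul_nonneg (abs_nonneg _) (abs_nonneg _))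
  have t1 := abs_le.1 (t b2 (x := a) (y := b))
  have t2 := abs_le.1 (t b2 (x := c) (y := d))
  have t3 := abs_le.1 (t b3 (x := a) (y := e))
  have t4 := abs_le.1 (t b1 (x := a) (y := e))
  have t5 := mul_le_mul_of_nonneg_left t2.1 hR
  have t6 := mul_le_mul_of_nonneg_left t2.2 hR
  rw [abs_le]
  constructor <;> nlinarith

theorem IDS_pt2 {C a b e g gY : ℝ} (b1 : |g| ≤ C) (b3 : |gY| ≤ C) :
    |(-1) * (gY * (a * b)) + (-1) * (g * (a * e))| ≤ C * (|a| * |b|) + C * (|a| * |e|) := by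
  have t : ∀ {G x y : ℝ}, |G| ≤ C → |G * (x * y)| ≤ C * (|x| * |y|) := by
    intro G x y hG
    rw [abs_mul, abs_mul]
    exact mul_le_mul_of_nonneg_right hG (mul_nonneg (abs_nonneg _) (abs_nonneg _))
  have t3 := abs_le.1 (t b3 (x := a) (y := b))
  have t4 := abs_le.1 (t b1 (x := a) (y := e))
  rw [abs_le]
  constructor <;> linarith

theorem IDS : IDS_stmt := by
  intro g v C R hFB hv hvs hR ND Nv NX NXD NE
  have h1 : CA1_stmt := CA1
  have h2 : CA2_stmt := CA2 CA1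
  have h3 : DXI_stmt := DXI INV CA1
  obtain ⟨hg2, hgb⟩ := hFB
  obtain ⟨hc0, hle, -, -, hder, -, -, -, -, hts⟩ := h1 ℝ
  have hC : 0 ≤ C := (abs_nonneg _).trans (hgb UpperHalfPlane.I).1
  have hder2 : ∀ φ : ℍ → ℝ, CD 3 φ → CD 2 (dX φ) ∧ CD 2 (dY φ) := by
    intro φ hφ
    have := hder φ 2 (by norm_num; exact hφ)
    simpa using this
  have hder1 : ∀ φ : ℍ → ℝ, CD 2 φ → CD 1 (dX φ) ∧ CD 1 (dY φ) := by
    intro φ hφ
    have := hder φ 1 (by norm_num; exact hφ)
    simpa using this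
  have hder0 : ∀ φ : ℍ → ℝ, CD 1 φ → Continuous (dX φ) ∧ Continuous (dY φ) := by
    intro φ hφ
    have := hder φ 0 (by simpa using hφ)
    exact ⟨(hc0 _).1 (by simpa using this.1), (hc0 _).1 (by simpa using this.2)⟩
  have h21 : ∀ φ : ℍ → ℝ, CD 2 φ → CD 1 φ := fun φ hφ => hle φ 1 2 (by norm_num) hφ
  have hcont : ∀ φ : ℍ → ℝ, CD 1 φ → Continuous φ := fun φ hφ =>
    (hc0 _).1 (hle φ 0 1 (by norm_num) hφ)
  have hv3 : CD 3 v := hle v 3 ∞ (by
    show (((3 : ℕ∞) : WithTop ℕ∞)) ≤ ((⊤ : ℕ∞) : WithTop ℕ∞)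
    exact WithTop.coe_le_coe.mpr le_top) hv
  have hv2 : CD 2 v := hle v 2 3 (by norm_num) hv3
  have hv1 : CD 1 v := h21 v hv2
  obtain ⟨hvX2, hvY2⟩ := hder2 v hv3
  obtain ⟨hgX1, hgY1⟩ := hder1 g hg2
  have hg1 := h21 g hg2
  have ts : ∀ {φ : ℍ → ℝ}, HasCompactSupport φ → HasCompactSupport (dX φ) ∧
      HasCompactSupport (dY φ) := fun {φ} hφ =>
    ⟨hφ.of_isClosed_subset (isClosed_tsupport _) (hts φ).1,
      hφ.of_isClosed_subset (isClosed_tsupport _) (hts φ).2⟩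
  -- the data of `v`
  have Dv : REL_D v (dX v) (fun z => dD v z + v z / 2) := by
    refine ⟨hv1, fun _ => rfl, fun z => ?_⟩
    unfold dD
    ring
  have hweq : dD v = fun z => dY v z + -(1 / 2) * v z := by
    funext z
    unfold dD
    ring
  have DYv : REL_D (dY v) (dX (dY v)) (dY (dY v)) := ⟨h21 _ hvY2, fun _ => rfl, fun _ => rfl⟩
  have hw2 : CD 2 (dD v) := by
    obtain ⟨-, -, hadd, hmul, -, -, -, -, hcd, -⟩ := h1 ℝ
    rw [hweq]
    exact hadd _ _ 2 hvY2 (hmul (fun _ => -(1 / 2)) v 2 (hcd _ 2) hv2)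
  obtain ⟨w, hw⟩ : ∃ w : ℍ → ℝ, w = dD v := ⟨_, rfl⟩
  have hw2' : CD 2 w := by rw [hw]; exact hw2
  obtain ⟨hwX1, hwY1⟩ := hder1 w hw2'
  obtain ⟨E, hE⟩ : ∃ E : ℍ → ℝ, E = fun z => dD (dD v) z + R * v z := ⟨_, rfl⟩
  have Dw : REL_D w (dX w) (fun z => E z - R * v z + w z / 2) := by
    refine ⟨h21 _ hw2', fun _ => rfl, fun z => ?_⟩
    rw [hE, hw]
    show dY (dD v) z = dD (dD v) z + R * v z - R * v z + dD v z / 2
    have e : dD (dD v) z = dY (dD v) z - dD v z / 2 := rfl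
    rw [e]
    ring
  rw [← hw] at Dv
  have Dg : REL_D g (dX g) (dY g) := ⟨hg1, fun _ => rfl, fun _ => rfl⟩
  have DgX : REL_D (dX g) (dX (dX g)) (dY (dX g)) := ⟨hgX1, fun _ => rfl, fun _ => rfl⟩
  have DgY : REL_D (dY g) (dX (dY g)) (dY (dY g)) := ⟨hgY1, fun _ => rfl, fun _ => rfl⟩
  -- continuity and supports
  have kv : REL_K v := ⟨hcont v hv1, hvs⟩
  have kp : REL_K (dX v) := ⟨(hder0 v hv1).1, (ts hvs).1⟩
  have kYv : REL_K (dY v) := ⟨(hder0 v hv1).2, (ts hvs).2⟩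
  have kw : REL_K w := by
    rw [hw, hweq]
    exact kYv.add (kv.cmul _)
  have ks : REL_K (dX w) := ⟨(hder0 w (h21 _ hw2')).1, (ts kw.supp).1⟩
  have kYw : REL_K (dY w) := ⟨(hder0 w (h21 _ hw2')).2, (ts kw.supp).2⟩
  have kE : REL_K E := by
    have e : E = fun z => (dY w z + -(1 / 2) * w z) + R * v z := by
      funext z
      rw [hE, hw]
      show dD (dD v) z + R * v z = _
      have e : dD (dD v) z = dY (dD v) z - dD v z / 2 := rfl
      rw [e]
      ring
    rw [e]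
    exact (kYw.add (kw.cmul _)).add (kv.cmul R)
  have cg : Continuous g := hcont g hg1
  have cX : Continuous (dX g) := (hder0 g hg1).1
  have cY : Continuous (dY g) := (hder0 g hg1).2
  have kww := REL_K.mul kw.cont kw
  have kvv := REL_K.mul kv.cont kv
  have kws := REL_K.mul kw.cont ks
  have kvp := REL_K.mul kv.cont kp
  have kwE := REL_K.mul kw.cont kE
  have kvw := REL_K.mul kv.cont kw
  have kvE := REL_K.mul kv.cont kE
  have kF := kww.add (kvv.cmul R)
  have DF := (Dw.mul h1 Dw).add h1 ((Dv.mul h1 Dv).cmul h1 R)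
  have Dvw := Dv.mul h1 Dw
  -- first identity
  have I1 : ∫ z : ℍ, lap g z * (w z ^ 2 + R * v z ^ 2) =
      ∫ z : ℍ, (2 * (dX g z * (w z * dX w z)) + (2 * R) * (dX g z * (v z * dX v z)) +
        2 * (dY g z * (w z * E z)) - 2 * (g z * (w z * E z))) := by
    have kEE := ((((REL_K.mul cX kws).cmul 2).add ((REL_K.mul cX kvp).cmul (2 * R))).add
      ((REL_K.mul cY kwE).cmul 2)).sub ((REL_K.mul cg kwE).cmul 2)
    refine REL_key h1 h3 ((DgX.mul h1 DF).cmul h1 (-1)) ((REL_K.mul cX kF).cmul (-1))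
      (((DgY.mul h1 DF).cmul h1 (-1)).add h1 (Dg.mul h1 DF))
      (((REL_K.mul cY kF).cmul (-1)).add (REL_K.mul cg kF)) kEE ?_
    intro z
    rw [(h2 ℝ g hg2 z).2]
    ring
  -- second identity
  have I2 : ∫ z : ℍ, (g z * w z ^ 2 - R * (g z * v z ^ 2)) =
      ∫ z : ℍ, ((-1) * (dY g z * (v z * w z)) + (-1) * (g z * (v z * E z))) := by
    have kEE := ((REL_K.mul cY kvw).cmul (-1)).add ((REL_K.mul cg kvE).cmul (-1))
    have k0 : REL_K (fun _ : ℍ => (0 : ℝ)) := by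
      have := kv.cmul 0
      simpa using this
    have D0 : REL_D (fun _ : ℍ => (0 : ℝ)) (fun _ => 0) (fun _ => 0) := by
      have h4 := Dv.cmul h1 0
      simpa using h4
    refine REL_key h1 h3 D0 k0 (Dg.mul h1 Dvw) (REL_K.mul cg kvw) kEE ?_
    intro z
    ring
  have hND : ND = Real.sqrt (∫ z : ℍ, w z ^ 2) := by rw [hw]
  have hNXD : NXD = Real.sqrt (∫ z : ℍ, dX w z ^ 2) := by rw [hw]
  have hNE : NE = Real.sqrt (∫ z : ℍ, E z ^ 2) := by rw [hE]
  have K : ∀ {a b : ℍ → ℝ}, REL_K a → REL_K b → REL_K (fun z => |a z| * |b z|) :=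
    fun ha hb => REL_K.mul ha.cont.abs hb.abs
  have c1 := REL_CS kw ks
  have c2 := REL_CS kv kp
  have c3 := REL_CS kw kE
  have c4 := REL_CS kv kw
  have c5 := REL_CS kv kE
  rw [← hND, ← hNXD] at c1
  rw [← hND, ← hNE] at c3
  rw [← hND] at c4
  rw [← hNE] at c5
  constructor
  · rw [← hw, I1]
    refine abs_integral_le_integral_abs.trans ?_
    have kB := (((K kw ks).cmul (2 * C)).add ((K kv kp).cmul (2 * R * C))).add
      ((K kw kE).cmul (4 * C))
    have kA := ((((REL_K.mul cX kws).cmul 2).add ((REL_K.mul cX kvp).cmul (2 * R))).add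
      ((REL_K.mul cY kwE).cmul 2)).sub ((REL_K.mul cg kwE).cmul 2)
    refine (integral_mono kA.abs.int kB.int fun z => ?_).trans ?_
    · obtain ⟨b1, b2, b3, -⟩ := hgb z
      exact IDS_pt hR b1 b2 b3
    · rw [(((K kw ks).cmul (2 * C)).add ((K kv kp).cmul (2 * R * C))).iadd ((K kw kE).cmul (4 * C)),
        ((K kw ks).cmul (2 * C)).iadd ((K kv kp).cmul (2 * R * C)), integral_const_mul,
        integral_const_mul, integral_const_mul]
      have d1 := mul_le_mul_of_nonneg_left c1 hC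
      have d2 := mul_le_mul_of_nonneg_left c2 (mul_nonneg hR hC)
      have d3 := mul_le_mul_of_nonneg_left c3 hC
      have n1 : 0 ≤ ND := Real.sqrt_nonneg _
      have n2 : 0 ≤ NXD := Real.sqrt_nonneg _
      have n3 : 0 ≤ Nv := Real.sqrt_nonneg _
      have n4 : 0 ≤ NX := Real.sqrt_nonneg _
      have p1 : 0 ≤ C * (ND * NXD) := by positivity
      have p2 : 0 ≤ R * C * (Nv * NX) := by positivity
      nlinarith
  · rw [← hw]
    have e : (∫ z : ℍ, g z * w z ^ 2) - R * ∫ z : ℍ, g z * v z ^ 2 =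
        ∫ z : ℍ, (g z * w z ^ 2 - R * (g z * v z ^ 2)) := by
      have ka : REL_K (fun z => g z * w z ^ 2) := REL_K.mul cg kw.sq
      have kb : REL_K (fun z => g z * v z ^ 2) := REL_K.mul cg kv.sq
      rw [ka.isub (kb.cmul R), integral_const_mul]
    rw [e, I2]
    refine abs_integral_le_integral_abs.trans ?_
    have kB := ((K kv kw).cmul C).add ((K kv kE).cmul C)
    have kA := ((REL_K.mul cY kvw).cmul (-1)).add ((REL_K.mul cg kvE).cmul (-1))
    refine (integral_mono kA.abs.int kB.int fun z => ?_).trans ?_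
    · obtain ⟨b1, b2, b3, -⟩ := hgb z
      exact IDS_pt2 b1 b3
    · rw [((K kv kw).cmul C).iadd ((K kv kE).cmul C), integral_const_mul, integral_const_mul]
      have d1 := mul_le_mul_of_nonneg_left c4 hC
      have d2 := mul_le_mul_of_nonneg_left c5 hC
      linarith

end Pool.Agent.QX
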