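import Pool.Agent.helper4.QX.SpecF

set_option autoImplicit false

/-! # MP_07c750, project QX, row EBF: a finite family of test functions -/

open scoped MatrixGroups ContDiff Topology UpperHalfPlane
open UpperHalfPlane MeasureTheory ProbabilityTheory Filter Set Polynomial
open Pool.Agent.QU Pool.Agent.RP

namespace Pool.Agent.QX

/-- the indicator function of the orbit of `c` -/
noncomputable def EBF_E (Γ : Subgroup SL(2, ℝ)) (c : Set ℍ) : ℍ → ℝ :=
  Set.indicator {z : ℍ | ∃ γ : Γ, γ • z ∈ c} (fun _ => (1 : ℝ))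

theorem EBF_E01 (Γ : Subgroup SL(2, ℝ)) (c : Set ℍ) (z : ℍ) : 0 ≤ EBF_E Γ c z ∧ EBF_E Γ c z ≤ 1 := by
  unfold EBF_E
  by_cases h : z ∈ {z : ℍ | ∃ γ : Γ, γ • z ∈ c}
  · rw [indicator_of_mem h]; norm_num
  · rw [indicator_of_notMem h]; norm_num

theorem EBF_Einv (Γ : Subgroup SL(2, ℝ)) (c : Set ℍ) (γ : Γ) (z : ℍ) :
    EBF_E Γ c (γ • z) = EBF_E Γ c z := by
  unfold EBF_E
  have h : (γ • z ∈ {z : ℍ | ∃ γ : Γ, γ • z ∈ c}) ↔ (z ∈ {z : ℍ | ∃ γ : Γ, γ • z ∈ c}) := by
    constructor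
    · rintro ⟨δ, hδ⟩
      exact ⟨δ * γ, by rw [mul_smul]; exact hδ⟩
    · rintro ⟨δ, hδ⟩
      refine ⟨δ * γ⁻¹, ?_⟩
      rw [mul_smul, inv_smul_smul]
      exact hδ
  by_cases h1 : z ∈ {z : ℍ | ∃ γ : Γ, γ • z ∈ c}
  · rw [indicator_of_mem h1, indicator_of_mem (h.2 h1)]
  · rw [indicator_of_notMem h1, indicator_of_notMem (fun h2 => h1 (h.1 h2))]

theorem EBF_Emeas {Γ : Subgroup SL(2, ℝ)} (hΓ : Countable Γ) {c : Set ℍ} (hc : MeasurableSet c) :
    Measurable (EBF_E Γ c) := by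
  unfold EBF_E
  refine measurable_const.indicator ?_
  have h : {z : ℍ | ∃ γ : Γ, γ • z ∈ c} = ⋃ γ : Γ, (fun z : ℍ => γ • z) ⁻¹' c := by
    ext z
    simp
  rw [h]
  exact MeasurableSet.iUnion fun γ => (measurable_const_smul γ) hc

section kernel

variable {κ₁ : ℝ → ℝ} {C : ℝ}

theorem EBF_int (hBF : BF κ₁ C) {η : ℝ} (hη : 0 < η) (z : ℍ) :
    Integrable fun w : ℍ => fm κ₁ η (tt z w) := by
  have hrk : RK (fm κ₁ η) := hBF.fam.rk η hη
  have hcx : Continuous fun v : ℍ => fm κ₁ η (tt z v) :=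
    hrk.smooth.continuous.comp (A_TTT.2.2.2.2.1.comp (Continuous.prodMk_right z))
  have hcs : HasCompactSupport fun v : ℍ => fm κ₁ η (tt z v) := by
    obtain ⟨s, hs⟩ := hrk.supp
    obtain ⟨R', -, hR'⟩ := A_TTT.2.2.2.2.2.1 s
    refine HasCompactSupport.intro (isCompact_closedBall z R') fun v hv => ?_
    by_contra hc
    refine hv ?_
    rw [Metric.mem_closedBall, dist_comm]
    refine hR' z v ?_
    by_contra hc2
    push Not at hc2
    exact hc (hs _ hc2.le)
  exact hcx.integrable_of_hasCompactSupport hcs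

theorem EBF_intf (hBF : BF κ₁ C) {η : ℝ} (hη : 0 < η) (z : ℍ) {f : ℍ → ℝ} (hf : Measurable f) (m : ℝ)
    (hm : ∀ w, |f w| ≤ m) : Integrable fun w : ℍ => fm κ₁ η (tt z w) * f w := by
  have h1 := (EBF_int hBF hη z).smul_bdd m (f := f) hf.aestronglyMeasurable
    (Eventually.of_forall fun w => by rw [Real.norm_eq_abs]; exact hm w)
  exact h1

theorem EBF_bd (hBF : BF κ₁ C) {η : ℝ} (hη : 0 < η) (z : ℍ) {f : ℍ → ℝ} {B : ℝ} (hB : 0 ≤ B)
    (hf : ∀ w, tt z w < η → |f w| ≤ B) : |∫ w : ℍ, fm κ₁ η (tt z w) * f w| ≤ B := by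
  have h1 : ∫ w : ℍ, fm κ₁ η (tt z w) * B = B := by
    rw [integral_mul_const, hBF.fam.mass η hη z, one_mul]
  have h2 : |∫ w : ℍ, fm κ₁ η (tt z w) * f w| ≤ ∫ w : ℍ, ‖fm κ₁ η (tt z w) * f w‖ := by
    rw [← Real.norm_eq_abs]
    exact norm_integral_le_integral_norm _
  refine h2.trans ?_
  rw [← h1]
  refine integral_mono_of_nonneg (Eventually.of_forall fun w => norm_nonneg _)
    ((EBF_int hBF hη z).mul_const B) (Eventually.of_forall fun w => ?_)
  show ‖fm κ₁ η (tt z w) * f w‖ ≤ fm κ₁ η (tt z w) * B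
  have h3 : 0 ≤ fm κ₁ η (tt z w) := hBF.fam.nonneg η hη _
  rw [norm_mul, Real.norm_eq_abs, Real.norm_eq_abs, abs_of_nonneg h3]
  by_cases h4 : tt z w < η
  · exact mul_le_mul_of_nonneg_left (hf w h4) h3
  · rw [hBF.fam.supp η hη _ (not_lt.1 h4), zero_mul, zero_mul]

end kernel

theorem EBF_dist {z w : ℍ} {ρ : ℝ} (hρ : 0 < ρ) (h : tt z w < ρ ^ 2) : dist z w ≤ 2 * ρ := by
  rw [A_TTT.1 z w] at h
  have hd : 0 ≤ dist z w / 2 := by positivity
  have h1 : Real.cosh (dist z w) = 1 + 2 * Real.sinh (dist z w / 2) ^ 2 := by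
    have e1 := Real.cosh_two_mul (dist z w / 2)
    have e2 := Real.cosh_sq (dist z w / 2)
    have e3 : 2 * (dist z w / 2) = dist z w := by ring
    rw [e3] at e1
    linarith
  have h3 : (dist z w / 2) ^ 2 ≤ Real.sinh (dist z w / 2) ^ 2 :=
    pow_le_pow_left₀ hd (Real.self_le_sinh_iff.2 hd) 2
  have h2 : dist z w ^ 2 ≤ (2 * ρ) ^ 2 := by nlinarith
  exact abs_le_of_sq_le_sq' h2 (by positivity) |>.2

theorem EBF (hBMP : BMP_stmt) (hPTN : PTN_stmt) (hLIQ : LIQ_stmt) (hEDM : EDM_stmt) : EBF_stmt := by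
  classical
  obtain ⟨κ₁, C, hBF⟩ := hBMP
  intro Γ F hΓ hF
  obtain ⟨A₁, hA₁, hPTN⟩ := hPTN Γ F hF
  obtain ⟨A₂, hA₂, hLIQ⟩ := hLIQ κ₁ C hBF Γ F hΓ hF
  obtain ⟨m, hm1, hEDM⟩ := hEDM Γ F hΓ hF
  obtain ⟨hcount, -, hvpos, hvfin, -, -⟩ := A_DOB Γ F hΓ hF
  obtain ⟨v, hv⟩ : ∃ v : ℝ, v = (volume F).toReal := ⟨_, rfl⟩
  have hv0 : 0 < v := by
    rw [hv]; exact ENNReal.toReal_pos hvpos.ne' hvfin.ne
  have hsv : 0 ≤ Real.sqrt v := Real.sqrt_nonneg v
  have hL0 : 0 ≤ A₂ * Real.sqrt v := mul_nonneg (by linarith) hsv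
  have hm0 : 0 ≤ m := by linarith
  refine ⟨A₁ + (A₂ * Real.sqrt v + 1) * m + 6, by
    have : 0 ≤ (A₂ * Real.sqrt v + 1) * m := by positivity
    linarith, ?_⟩
  intro ρ hρ hρ1
  obtain ⟨k, c, p, hk, hcm, hpc, hcF, hcd, hcζ⟩ := hPTN ρ hρ hρ1
  obtain ⟨η, hη⟩ : ∃ η : ℝ, η = ρ ^ 2 := ⟨_, rfl⟩
  have hη0 : 0 < η := by rw [hη]; positivity
  have hη1 : η ≤ 1 := by rw [hη]; exact pow_le_one₀ hρ.le hρ1
  have hEmeas : ∀ i, Measurable (EBF_E Γ (c i)) := fun i => EBF_Emeas hcount (hcm i)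
  have hEabs : ∀ i w, |EBF_E Γ (c i) w| ≤ 1 := fun i w => by
    rw [abs_of_nonneg (EBF_E01 Γ (c i) w).1]
    exact (EBF_E01 Γ (c i) w).2
  -- the functions
  obtain ⟨χt, hχt⟩ : ∃ χt : Fin k → ℍ → ℝ, χt = fun i z => ∫ w : ℍ, fm κ₁ η (tt z w) * EBF_E Γ (c i) w :=
    ⟨_, rfl⟩
  have hχconv : ∀ i, χt i = conv (fm κ₁ η) (EBF_E Γ (c i)) := by
    intro i
    rw [hχt]
    rfl
  obtain ⟨L, hL⟩ : ∃ L : ℝ, L = A₂ * Real.sqrt v / η ^ 2 + 1 := ⟨_, rfl⟩
  have hL1 : 1 ≤ L := by
    rw [hL]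
    have : 0 ≤ A₂ * Real.sqrt v / η ^ 2 := by positivity
    linarith
  have hLpos : 0 < L := by linarith
  have hχ01 : ∀ i z, 0 ≤ χt i z ∧ χt i z ≤ 1 := by
    intro i z
    have h0 : 0 ≤ χt i z := by
      rw [hχt]
      exact integral_nonneg fun w => mul_nonneg (hBF.fam.nonneg η hη0 _) (EBF_E01 Γ (c i) w).1
    refine ⟨h0, ?_⟩
    have h1 := EBF_bd hBF hη0 z (f := EBF_E Γ (c i)) (B := 1) (by norm_num) (fun w _ => hEabs i w)
    have h2 : χt i z = ∫ w : ℍ, fm κ₁ η (tt z w) * EBF_E Γ (c i) w := by rw [hχt]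
    rw [← h2] at h1
    exact (le_abs_self _).trans h1
  have hχinv : ∀ (i : Fin k) (γ : Γ) (z : ℍ), χt i (γ • z) = χt i z := by
    intro i γ z
    rw [hχconv i]
    have h1 := (A_CVB ℝ).1 (fm κ₁ η) (EBF_E Γ (c i)) (γ : SL(2, ℝ)) z
    have h2 : (fun w : ℍ => EBF_E Γ (c i) ((γ : SL(2, ℝ)) • w)) = EBF_E Γ (c i) := by
      funext w
      exact EBF_Einv Γ (c i) γ w
    rw [h2] at h1
    exact h1.symm
  have hχlip : ∀ (i : Fin k) (z w : ℍ), |χt i z - χt i w| ≤ L * dist z w := by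
    intro i z w
    rcases le_or_gt (dist z w) 1 with hd | hd
    · have hsec : SecB (1 : Γ →* (ℂ ≃ₗᵢ[ℂ] ℂ)) (fun z => ((EBF_E Γ (c i) z : ℝ) : ℂ)) := by
        refine ⟨(Complex.measurable_ofReal.comp (hEmeas i)).stronglyMeasurable, ⟨1, fun z => ?_⟩, fun γ z => ?_⟩
        · rw [Complex.norm_real, Real.norm_eq_abs]
          exact hEabs i z
        · rw [EBF_Einv]
          simp
      have h1 := hLIQ ℂ 1 (fun z => ((EBF_E Γ (c i) z : ℝ) : ℂ)) η z w hη0 hη1 hsec hd
      have h2 : ∀ x : ℍ, conv (fm κ₁ η) (fun z => ((EBF_E Γ (c i) z : ℝ) : ℂ)) x = ((χt i x : ℝ) : ℂ) := by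
        intro x
        rw [hχt]
        unfold conv
        show _ = ((∫ w : ℍ, fm κ₁ η (tt x w) * EBF_E Γ (c i) w : ℝ) : ℂ)
        rw [← integral_complex_ofReal]
        refine integral_congr_ae (Eventually.of_forall fun w => ?_)
        show fm κ₁ η (tt x w) • ((EBF_E Γ (c i) w : ℝ) : ℂ) = ((fm κ₁ η (tt x w) * EBF_E Γ (c i) w : ℝ) : ℂ)
        rw [Complex.real_smul, Complex.ofReal_mul]
      rw [h2, h2, ← Complex.ofReal_sub, Complex.norm_real, Real.norm_eq_abs] at h1
      have h3 : ∫ z in F, ‖((EBF_E Γ (c i) z : ℝ) : ℂ)‖ ^ 2 ≤ v := by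
        have h4 : ∫ z in F, (1 : ℝ) = v := by
          rw [setIntegral_const, smul_eq_mul, mul_one, hv]
          rfl
        rw [← h4]
        refine integral_mono_of_nonneg (Eventually.of_forall fun z => sq_nonneg _) ?_
          (Eventually.of_forall fun z => ?_)
        · exact integrableOn_const hvfin.ne
        · show ‖((EBF_E Γ (c i) z : ℝ) : ℂ)‖ ^ 2 ≤ 1
          rw [Complex.norm_real, Real.norm_eq_abs]
          exact pow_le_one₀ (abs_nonneg _) (hEabs i z)
      have h5 := Real.sqrt_le_sqrt h3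
      have h6 : A₂ / η ^ 2 * dist z w * Real.sqrt (∫ z in F, ‖((EBF_E Γ (c i) z : ℝ) : ℂ)‖ ^ 2) ≤
          A₂ / η ^ 2 * dist z w * Real.sqrt v :=
        mul_le_mul_of_nonneg_left h5 (by positivity)
      have h7 : A₂ / η ^ 2 * dist z w * Real.sqrt v ≤ L * dist z w := by
        rw [hL]
        have e1 : A₂ / η ^ 2 * dist z w * Real.sqrt v = A₂ * Real.sqrt v / η ^ 2 * dist z w := by ring
        rw [e1]
        exact mul_le_mul_of_nonneg_right (by linarith) dist_nonneg
      linarith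
    · have h1 : |χt i z - χt i w| ≤ 1 := by
        rw [abs_le]
        have a1 := hχ01 i z
        have a2 := hχ01 i w
        constructor <;> linarith
      have h2 : 1 * 1 ≤ L * dist z w := mul_le_mul hL1 hd.le (by norm_num) hLpos.le
      linarith
  have hχcont : ∀ i, Continuous (χt i) := by
    intro i
    have h1 : LipschitzWith ⟨L, hLpos.le⟩ (χt i) := LipschitzWith.of_dist_le_mul fun z w => by
      rw [Real.dist_eq]
      exact hχlip i z w
    exact h1.continuous
  have hχint : ∀ i, IntegrableOn (χt i) F := by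
    intro i
    refine Measure.integrableOn_of_bounded hvfin.ne (hχcont i).measurable.aestronglyMeasurable (M := 1)
      (Eventually.of_forall fun z => ?_)
    rw [Real.norm_eq_abs, abs_of_nonneg (hχ01 i z).1]
    exact (hχ01 i z).2
  have hconstint : ∀ a : ℝ, ∫ z in F, a = v * a := by
    intro a
    rw [setIntegral_const, smul_eq_mul, hv]
    rfl
  obtain ⟨M, hM⟩ : ∃ M : Fin k → ℝ, M = fun i => (∫ z in F, χt i z) / v := ⟨_, rfl⟩
  have hMv : ∀ i, v * M i = ∫ z in F, χt i z := by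
    intro i
    rw [hM]
    show v * ((∫ z in F, χt i z) / v) = ∫ z in F, χt i z
    field_simp
  refine ⟨k, fun i z => (χt i z - M i) / L, ?_, ?_, ?_⟩
  · refine hk.trans ?_
    apply div_le_div_of_nonneg_right _ (by positivity)
    have : 0 ≤ (A₂ * Real.sqrt v + 1) * m := by positivity
    linarith
  · intro i
    refine ⟨fun γ z => ?_, fun z w => ?_, ?_⟩
    · show (χt i (γ • z) - M i) / L = (χt i z - M i) / L
      rw [hχinv]
    · show |(χt i z - M i) / L - (χt i w - M i) / L| ≤ dist z w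
      have e1 : (χt i z - M i) / L - (χt i w - M i) / L = (χt i z - χt i w) / L := by ring
      rw [e1, abs_div, abs_of_pos hLpos, div_le_iff₀ hLpos, mul_comm]
      exact hχlip i z w
    · show ∫ z in F, (χt i z - M i) / L = 0
      rw [integral_div, integral_sub (hχint i) (integrableOn_const hvfin.ne), hconstint, hMv, sub_self, zero_div]
  · intro h hh
    refine ⟨fun i => L * h (p i), fun i => ?_, fun z => ?_⟩
    · show |L * h (p i)| ≤ _
      rw [abs_mul, abs_of_pos hLpos]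
      have h1 : L ≤ (A₂ * Real.sqrt v + 1) / ρ ^ 6 := by
        rw [hL, hη, le_div_iff₀ (by positivity), add_mul]
        have e1 : A₂ * Real.sqrt v / (ρ ^ 2) ^ 2 * ρ ^ 6 = A₂ * Real.sqrt v * ρ ^ 2 := by
          field_simp
        have e2 : ρ ^ 2 ≤ 1 := pow_le_one₀ hρ.le hρ1
        have e3 : ρ ^ 6 ≤ 1 := pow_le_one₀ hρ.le hρ1
        have e4 : A₂ * Real.sqrt v * ρ ^ 2 ≤ A₂ * Real.sqrt v * 1 := mul_le_mul_of_nonneg_left e2 hL0
        rw [e1]
        linarith
      have h2 : L * |h (p i)| ≤ (A₂ * Real.sqrt v + 1) / ρ ^ 6 * m :=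
        mul_le_mul h1 (hEDM h hh (p i)) (abs_nonneg _) (by positivity)
      refine h2.trans ?_
      have e5 : (A₂ * Real.sqrt v + 1) / ρ ^ 6 * m = (A₂ * Real.sqrt v + 1) * m / ρ ^ 6 := by ring
      rw [e5]
      apply div_le_div_of_nonneg_right _ (by positivity)
      linarith
    · -- the approximation
      have hhcont : Continuous h := hh.Inv.1
      have hhm : ∀ w, |h w| ≤ m := hEDM h hh
      obtain ⟨h', hh'⟩ : ∃ h' : ℍ → ℝ, h' = fun z => ∑ i, h (p i) * χt i z := ⟨_, rfl⟩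
      have hcell : ∀ w : ℍ, |h w - ∑ i, h (p i) * EBF_E Γ (c i) w| ≤ ρ := by
        intro w
        obtain ⟨γ, hγ, huniq⟩ := hF.uniq w
        have hγF : γ • w ∈ ⋃ i, c i := by rw [hcF]; exact hγ
        obtain ⟨j, hj⟩ := Set.mem_iUnion.1 hγF
        have hE1 : EBF_E Γ (c j) w = 1 := by
          unfold EBF_E
          exact indicator_of_mem (show w ∈ {z : ℍ | ∃ γ : Γ, γ • z ∈ c j} from ⟨γ, hj⟩) _
        have hE0 : ∀ i, i ≠ j → EBF_E Γ (c i) w = 0 := by
          intro i hij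
          unfold EBF_E
          refine indicator_of_notMem ?_ _
          rintro ⟨δ, hδ⟩
          have hδF : δ • w ∈ F := by
            rw [← hcF]
            exact Set.mem_iUnion.2 ⟨i, hδ⟩
          have e1 := huniq δ hδF
          rw [e1] at hδ
          exact Set.disjoint_left.1 (hcd i j hij) hδ hj
        rw [Finset.sum_eq_single j (fun i _ hij => by rw [hE0 i hij, mul_zero])
          (fun hn => absurd (Finset.mem_univ j) hn), hE1, mul_one, ← hh.inv γ w]
        exact (hh.lip _ _).trans (hcζ j _ hj _ (hpc j))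
      have hI1 : ∀ z, Integrable fun w : ℍ => fm κ₁ η (tt z w) * h w := fun z =>
        EBF_intf hBF hη0 z hhcont.measurable m hhm
      have hI2 : ∀ z i, Integrable fun w : ℍ => fm κ₁ η (tt z w) * (h (p i) * EBF_E Γ (c i) w) := by
        intro z i
        refine EBF_intf hBF hη0 z ((hEmeas i).const_mul _) m (fun w => ?_)
        rw [abs_mul]
        have := mul_le_mul (hhm (p i)) (hEabs i w) (abs_nonneg _) hm0
        linarith
      have happ : ∀ z, |h z - h' z| ≤ 3 * ρ := by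
        intro z
        have e1 : h z - ∫ w : ℍ, fm κ₁ η (tt z w) * h w = ∫ w : ℍ, fm κ₁ η (tt z w) * (h z - h w) := by
          have e2 : ∫ w : ℍ, fm κ₁ η (tt z w) * h z = h z := by
            rw [integral_mul_const, hBF.fam.mass η hη0 z, one_mul]
          calc h z - ∫ w : ℍ, fm κ₁ η (tt z w) * h w
              = (∫ w : ℍ, fm κ₁ η (tt z w) * h z) - ∫ w : ℍ, fm κ₁ η (tt z w) * h w := by rw [e2]
            _ = ∫ w : ℍ, (fm κ₁ η (tt z w) * h z - fm κ₁ η (tt z w) * h w) := by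
                rw [integral_sub ((EBF_int hBF hη0 z).mul_const _) (hI1 z)]
            _ = _ := by
                refine integral_congr_ae (Eventually.of_forall fun w => ?_)
                show fm κ₁ η (tt z w) * h z - fm κ₁ η (tt z w) * h w = fm κ₁ η (tt z w) * (h z - h w)
                ring
        have e3 : (∫ w : ℍ, fm κ₁ η (tt z w) * h w) - h' z =
            ∫ w : ℍ, fm κ₁ η (tt z w) * (h w - ∑ i, h (p i) * EBF_E Γ (c i) w) := by
          have e4 : h' z = ∑ i, ∫ w : ℍ, fm κ₁ η (tt z w) * (h (p i) * EBF_E Γ (c i) w) := by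
            rw [hh']
            refine Finset.sum_congr rfl fun i _ => ?_
            rw [hχt, ← integral_const_mul]
            refine integral_congr_ae (Eventually.of_forall fun w => ?_)
            show h (p i) * (fm κ₁ η (tt z w) * EBF_E Γ (c i) w) = fm κ₁ η (tt z w) * (h (p i) * EBF_E Γ (c i) w)
            ring
          rw [e4, ← integral_finsetSum _ (fun i _ => hI2 z i),
            ← integral_sub (hI1 z) (integrable_finsetSum _ fun i _ => hI2 z i)]
          refine integral_congr_ae (Eventually.of_forall fun w => ?_)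
          show fm κ₁ η (tt z w) * h w - ∑ i, fm κ₁ η (tt z w) * (h (p i) * EBF_E Γ (c i) w) =
            fm κ₁ η (tt z w) * (h w - ∑ i, h (p i) * EBF_E Γ (c i) w)
          rw [mul_sub, Finset.mul_sum]
        have b1 : |h z - ∫ w : ℍ, fm κ₁ η (tt z w) * h w| ≤ 2 * ρ := by
          rw [e1]
          refine EBF_bd hBF hη0 z (by positivity) (fun w hw => ?_)
          rw [hη] at hw
          exact (hh.lip z w).trans (EBF_dist hρ hw)
        have b2 : |(∫ w : ℍ, fm κ₁ η (tt z w) * h w) - h' z| ≤ ρ := by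
          rw [e3]
          exact EBF_bd hBF hη0 z hρ.le (fun w _ => hcell w)
        have e5 : h z - h' z = (h z - ∫ w : ℍ, fm κ₁ η (tt z w) * h w) +
            ((∫ w : ℍ, fm κ₁ η (tt z w) * h w) - h' z) := by ring
        rw [e5]
        refine (abs_add_le _ _).trans ?_
        linarith
      -- the mean
      have hh'int : IntegrableOn h' F := by
        rw [hh']
        exact integrable_finsetSum _ fun i _ => (hχint i).const_mul _
      have hhint : IntegrableOn h F := by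
        refine Measure.integrableOn_of_bounded hvfin.ne hhcont.measurable.aestronglyMeasurable (M := m)
          (Eventually.of_forall fun z => ?_)
        rw [Real.norm_eq_abs]
        exact hhm z
      have hmean : ∫ z in F, h' z = v * ∑ i, h (p i) * M i := by
        rw [hh', integral_finsetSum _ fun i _ => (hχint i).const_mul _, Finset.mul_sum]
        refine Finset.sum_congr rfl fun i _ => ?_
        rw [integral_const_mul, ← hMv]
        ring
      have hmb : |∑ i, h (p i) * M i| ≤ 3 * ρ := by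
        have e1 : ∫ z in F, (h' z - h z) = v * ∑ i, h (p i) * M i := by
          rw [integral_sub hh'int hhint, hh.mean, sub_zero, hmean]
        have e2 : |∫ z in F, (h' z - h z)| ≤ v * (3 * ρ) := by
          rw [← hconstint, ← Real.norm_eq_abs]
          refine (norm_integral_le_integral_norm _).trans ?_
          refine integral_mono_of_nonneg (Eventually.of_forall fun z => norm_nonneg _)
            (integrableOn_const hvfin.ne) (Eventually.of_forall fun z => ?_)
          show ‖h' z - h z‖ ≤ 3 * ρ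
          rw [Real.norm_eq_abs, abs_sub_comm]
          exact happ z
        rw [e1, abs_mul, abs_of_pos hv0] at e2
        exact le_of_mul_le_mul_left e2 hv0
      have e6 : ∑ i, L * h (p i) * ((χt i z - M i) / L) = h' z - ∑ i, h (p i) * M i := by
        rw [hh']
        show _ = (∑ i, h (p i) * χt i z) - ∑ i, h (p i) * M i
        rw [← Finset.sum_sub_distrib]
        refine Finset.sum_congr rfl fun i _ => ?_
        field_simp
      show |h z - ∑ i, L * h (p i) * ((χt i z - M i) / L)| ≤ _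
      rw [e6]
      have e7 : h z - (h' z - ∑ i, h (p i) * M i) = (h z - h' z) + ∑ i, h (p i) * M i := by ring
      rw [e7]
      refine (abs_add_le _ _).trans ?_
      have e8 : 0 ≤ (A₁ + (A₂ * Real.sqrt v + 1) * m) * ρ := by positivity
      have e9 := happ z
      have e10 : (A₁ + (A₂ * Real.sqrt v + 1) * m + 6) * ρ =
          (A₁ + (A₂ * Real.sqrt v + 1) * m) * ρ + 6 * ρ := by ring
      rw [e10]
      linarith

end Pool.Agent.QX
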